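import Pool.Agent.Helper79.OB.GoalsC

/-!
Project OB, packet BASE (`S_BASE`): the Bernoulli shift of `F_d` as a system.
-/

open MeasureTheory ProbabilityTheory
open scoped ENNReal

namespace Pool.Agent.Helper74.OB

open Pool.Agent.Helper73.OB Pool.Agent.Helper58.Orb Pool.Agent.Helper79.OB

variable {d : ℕ}

theorem run_f0 (w : List (Ltr d)) (x : Bern (FreeGroup (Fin d))) :
    run (f0 d) w x = fun h => x (FreeGroup.mk w * h) := by
  induction w generalizing x with
  | nil =>
    funext h
    rw [run_nil]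
    show x h = x ((1 : FreeGroup (Fin d)) * h)
    rw [one_mul]
  | cons s w ih =>
    funext h
    rw [run_cons, ih]
    unfold f0 shift
    rw [inv_inv]
    show x (fdir s * (FreeGroup.mk w * h)) = x (FreeGroup.mk (s :: w) * h)
    rw [← mul_assoc]
    unfold fdir
    rw [FreeGroup.mul_mk]
    rfl

theorem run_f0_shift (w : List (Ltr d)) (x : Bern (FreeGroup (Fin d))) :
    run (f0 d) w x = shift (FreeGroup.mk w)⁻¹ x := by
  rw [run_f0]
  unfold shift
  rw [inv_inv]

theorem red_iff (w : List (Ltr d)) : Red (bet d 0) w ↔ FreeGroup.IsReduced w := by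
  unfold Red FreeGroup.IsReduced
  have h : ∀ a b : Ltr d, (b ≠ bet d 0 a) ↔ (a.1 = b.1 → a.2 = b.2) := by
    intro a b
    unfold bet
    rw [if_neg (Nat.not_lt_zero _)]
    constructor
    · intro h1 h2
      by_contra h3
      apply h1
      refine Prod.ext h2.symm ?_
      rcases ha : a.2 <;> rcases hb : b.2 <;> simp_all
    · rintro h1 rfl
      have := h1 rfl
      simp at this
  simp only [h]

theorem mk_inj : Function.Injective fun w : RW (bet d 0) => FreeGroup.mk w.1 := by
  intro u v h
  have h1 := congrArg FreeGroup.toWord h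
  simp only [FreeGroup.toWord_mk] at h1
  rw [((red_iff _).1 u.2).reduce_eq, ((red_iff _).1 v.2).reduce_eq] at h1
  exact Subtype.ext h1

instance bern_prob (G : Type) : IsProbabilityMeasure (bern G) := by
  unfold bern
  infer_instance

theorem perm_mp {ι κ : Type} (f : ι → κ) (hf : Function.Injective f) :
    MeasurePreserving (fun (x : κ → unitInterval) (i : ι) => x (f i))
      (Measure.infinitePi fun _ : κ => (volume : Measure unitInterval))
      (Measure.infinitePi fun _ : ι => (volume : Measure unitInterval)) := by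
  refine ⟨by fun_prop, ?_⟩
  exact Measure.map_infinitePi_infinitePi_of_inj
    (P := fun _ : κ => (volume : Measure unitInterval)) hf

theorem f0_mp (s : Ltr d) : MeasurePreserving (f0 d s) (bern (FreeGroup (Fin d)))
    (bern (FreeGroup (Fin d))) := by
  have h := perm_mp (fun h : FreeGroup (Fin d) => (fdir s)⁻¹⁻¹ * h) (mul_right_injective _)
  exact h

theorem f0_good (d : ℕ) :
    Good (bet d 0) (bern (FreeGroup (Fin d))) (f0 d) (fun x => x 1) where
  sys := by
    constructor
    · exact f0_mp
    · intro s x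
      have h : bet d 0 s = (s.1, !s.2) := by
        unfold bet
        rw [if_neg (Nat.not_lt_zero _)]
      rw [h]
      funext g
      unfold f0 shift
      rw [fdir_inv, inv_inv, ← mul_assoc, mul_inv_cancel, one_mul]
  bnl := by
    refine ⟨by fun_prop, ?_⟩
    have h := perm_mp (fun w : RW (bet d 0) => FreeGroup.mk w.1) mk_inj
    have h1 : field (bet d 0) (f0 d) (fun x : Bern (FreeGroup (Fin d)) => x 1) =
        fun (x : FreeGroup (Fin d) → unitInterval) (w : RW (bet d 0)) => x (FreeGroup.mk w.1) := by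
      funext x w
      unfold field
      rw [run_f0]
      show x (FreeGroup.mk w.1 * 1) = x (FreeGroup.mk w.1)
      rw [mul_one]
    rw [h1]
    exact h
  gen := by
    have hr : ∀ g : FreeGroup (Fin d), Red (bet d 0) g.toWord := fun g =>
      (red_iff _).2 FreeGroup.isReduced_toWord
    refine ⟨fun ω g => ω ⟨g.toWord, hr g⟩, by fun_prop, ?_⟩
    refine Filter.Eventually.of_forall fun x => ?_
    funext g
    show run (f0 d) g.toWord x 1 = x g
    rw [run_f0]
    show x (FreeGroup.mk g.toWord * 1) = x g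
    rw [mul_one, FreeGroup.mk_toWord]

theorem list_word (l : List (FreeGroup (Fin d))) (hl : ∀ a ∈ l, a ∈ freeGens d) :
    ∃ w : List (Ltr d), w.length = l.length ∧ (FreeGroup.mk w)⁻¹ = l.prod := by
  induction l with
  | nil => exact ⟨[], rfl, inv_one⟩
  | cons a l ih =>
    obtain ⟨w, h1, h2⟩ := ih fun b hb => hl b (by simp [hb])
    have ha : a ∈ Set.range (fdir : Fin d × Bool → FreeGroup (Fin d)) := by
      rw [range_fdir]
      exact hl a (by simp)
    obtain ⟨s, rfl⟩ := ha
    refine ⟨w ++ [(s.1, !s.2)], by simp [h1], ?_⟩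
    rw [← FreeGroup.mul_mk, mul_inv_rev, h2, List.prod_cons]
    congr 1
    have h3 := fdir_inv s
    unfold fdir at h3 ⊢
    rw [h3, inv_inv]

theorem word_list (w : List (Ltr d)) :
    ∃ l : List (FreeGroup (Fin d)), (∀ a ∈ l, a ∈ freeGens d) ∧ l.prod = (FreeGroup.mk w)⁻¹ ∧
      l.length = w.length := by
  induction w with
  | nil => exact ⟨[], by simp, inv_one.symm, rfl⟩
  | cons s w ih =>
    obtain ⟨l, h1, h2, h3⟩ := ih
    refine ⟨l ++ [fdir (s.1, !s.2)], ?_, ?_, by simp [h3]⟩
    · intro a ha
      rw [List.mem_append] at ha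
      rcases ha with ha | ha
      · exact h1 a ha
      · rw [List.mem_singleton] at ha
        rw [ha, ← range_fdir]
        exact ⟨_, rfl⟩
    · have h4 : FreeGroup.mk (s :: w) = fdir s * FreeGroup.mk w := by
        unfold fdir
        rw [FreeGroup.mul_mk]
        rfl
      rw [List.prod_append, h2, List.prod_singleton, fdir_inv, h4, mul_inv_rev]

theorem norm_word (g : FreeGroup (Fin d)) :
    ∃ w : List (Ltr d), (w.length : ℕ∞) = wordLen (freeGens d) g ∧
      ∀ x, run (f0 d) w x = shift g x := by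
  refine ⟨g⁻¹.toWord, ?_, ?_⟩
  · rw [(freeTree d).wordLen_eq g]
    show ((g⁻¹.norm : ℕ) : ℕ∞) = ((g.norm : ℕ) : ℕ∞)
    rw [FreeGroup.norm_inv_eq]
  · intro x
    rw [run_f0_shift, FreeGroup.mk_toWord, inv_inv]

/-- BASE. -/
theorem th_base : S_BASE := by
  intro d
  refine ⟨f0_good d, ?_, ?_, ?_, ?_⟩
  · intro x y
    unfold orbDist dst
    apply le_antisymm
    · refine le_iInf₂ fun w hw => ?_
      obtain ⟨l, h1, h2, h3⟩ := word_list w
      have h4 : shift (FreeGroup.mk w)⁻¹ x = y := by rw [← run_f0_shift, hw]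
      refine (iInf₂_le (f := fun (g : FreeGroup (Fin d)) (_ : shift g x = y) =>
        wordLen (freeGens d) g) (FreeGroup.mk w)⁻¹ h4).trans ?_
      unfold wordLen
      rw [← h3]
      exact iInf₂_le (f := fun (l : List (FreeGroup (Fin d)))
        (_ : (∀ a ∈ l, a ∈ freeGens d) ∧ l.prod = (FreeGroup.mk w)⁻¹) => (l.length : ℕ∞))
        l ⟨h1, h2⟩
    · refine le_iInf₂ fun g hg => ?_
      obtain ⟨w, h1, h2⟩ := norm_word g
      rw [← h1]
      exact iInf₂_le (f := fun (w : List (Ltr d)) (_ : run (f0 d) w x = y) => (w.length : ℕ∞))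
        w (by rw [h2, hg])
  · intro g R hg x
    obtain ⟨w, h1, h2⟩ := norm_word g
    refine ⟨w, ?_, h2 x⟩
    rw [← h1] at hg
    exact_mod_cast hg
  · intro w x
    exact ⟨_, run_f0_shift w x⟩
  · intro g
    obtain ⟨w, _, h2⟩ := norm_word g
    exact ⟨w, h2⟩

end Pool.Agent.Helper74.OB
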