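import Pool.Agent.Helper73.OB.GoalsA
import Pool.Agent.Helper73.OB.GoalsB

/-!
Project OB, packet EXCH (`S_EXCH`): construction of the exchanged system.
-/

open MeasureTheory ProbabilityTheory
open scoped ENNReal

namespace Pool.Agent.Helper74.OB

open Pool.Agent.Helper73.OB

section Piece

variable {X ι : Type} [MeasurableSpace X] [Countable ι] {μ : Measure X}

/-- A map that is piecewise (countably many measurable pieces) one of the measurable maps `F i`. -/
theorem piece_measurable (W : X → ι) (hW : ∀ i, MeasurableSet (W ⁻¹' {i})) (F : ι → X → X)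
    (hF : ∀ i, Measurable (F i)) : Measurable fun x => F (W x) x := by
  intro A hA
  have : (fun x => F (W x) x) ⁻¹' A = ⋃ i, W ⁻¹' {i} ∩ F i ⁻¹' A := by
    ext x
    simp
  rw [this]
  exact MeasurableSet.iUnion fun i => (hW i).inter (hF i hA)

/-- An involution that is piecewise a measure preserving bijection is measure preserving. -/
theorem piece_mp (T : X → X) (hT : ∀ x, T (T x) = x) (W : X → ι)
    (hW : ∀ i, MeasurableSet (W ⁻¹' {i})) (F F' : ι → X → X) (hF : ∀ i, Measurable (F i))
    (hF' : ∀ i, MeasurePreserving (F' i) μ μ) (h1 : ∀ i x, F' i (F i x) = x)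
    (h2 : ∀ i x, F i (F' i x) = x) (hTW : ∀ x, T x = F (W x) x) : MeasurePreserving T μ μ := by
  have hm : Measurable T := by
    have h := piece_measurable W hW F hF
    have he : T = fun x => F (W x) x := funext hTW
    rwa [he]
  refine ⟨hm, ?_⟩
  ext A hA
  rw [Measure.map_apply hm hA]
  have hmeas : ∀ i, MeasurableSet (W ⁻¹' {i} ∩ F i ⁻¹' A) := fun i => (hW i).inter (hF i hA)
  have e1 : T ⁻¹' A = ⋃ i, (W ⁻¹' {i} ∩ F i ⁻¹' A) := by
    ext x
    simp [hTW]
  have key : ∀ i y, W (F' i y) = i → F' i y = T y := by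
    intro i y hi
    have h3 : T (F' i y) = y := by
      rw [hTW, hi, h2]
    rw [← h3, hT, h3]
  have e2 : A = ⋃ i, F' i ⁻¹' (W ⁻¹' {i} ∩ F i ⁻¹' A) := by
    ext y
    simp only [Set.mem_iUnion, Set.mem_preimage, Set.mem_inter_iff, Set.mem_singleton_iff, h2]
    constructor
    · intro hy
      refine ⟨W (T y), ?_, hy⟩
      have h3 : F (W (T y)) (T y) = y := by
        rw [← hTW, hT]
      have h4 := h1 (W (T y)) (T y)
      rw [h3] at h4
      rw [h4]
    · rintro ⟨i, _, hy⟩
      exact hy
  have d1 : Pairwise (Function.onFun Disjoint fun i => W ⁻¹' {i} ∩ F i ⁻¹' A) := by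
    intro i j hij
    refine Set.disjoint_left.2 ?_
    rintro x ⟨hx, _⟩ ⟨hx', _⟩
    exact hij (hx.symm.trans hx')
  have d2 : Pairwise (Function.onFun Disjoint fun i => F' i ⁻¹' (W ⁻¹' {i} ∩ F i ⁻¹' A)) := by
    intro i j hij
    refine Set.disjoint_left.2 ?_
    rintro y ⟨hy, _⟩ ⟨hy', _⟩
    have hy1 : W (F' i y) = i := hy
    have hy2 : W (F' j y) = j := hy'
    apply hij
    rw [← hy1, ← hy2, key i y hy1, key j y hy2]
  rw [e1, measure_iUnion d1 hmeas]
  conv_rhs => rw [e2, measure_iUnion d2 fun i => (hF' i).measurable (hmeas i)]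
  congr 1
  funext i
  rw [(hF' i).measure_preimage (hmeas i).nullMeasurableSet]

end Piece

section Good

variable {S X : Type} [Finite S] [MeasurableSpace X] {μ : Measure X} {f : S → X → X}

/-- The points all of whose runs are in `G₀`. -/
def core (f : S → X → X) (G₀ : Set X) : Set X := ⋂ w : List S, run f w ⁻¹' G₀

omit [Finite S] [MeasurableSpace X] in
theorem core_sub (G₀ : Set X) : core f G₀ ⊆ G₀ := by
  intro x hx
  exact Set.mem_iInter.1 hx []

omit [Finite S] [MeasurableSpace X] in
theorem core_run (G₀ : Set X) {x : X} (hx : x ∈ core f G₀) (w : List S) :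
    run f w x ∈ core f G₀ := by
  refine Set.mem_iInter.2 fun u => ?_
  have := Set.mem_iInter.1 hx (w ++ u)
  simpa only [Set.mem_preimage, run_append] using this

theorem core_meas {β : S → S} (hf : Sys β μ f) {G₀ : Set X} (h : MeasurableSet G₀) :
    MeasurableSet (core f G₀) :=
  MeasurableSet.iInter fun w => (hf.run_mp w).measurable h

theorem core_full {β : S → S} (hf : Sys β μ f) {G₀ : Set X} (h : MeasurableSet G₀)
    (h0 : μ G₀ᶜ = 0) : μ (core f G₀)ᶜ = 0 := by
  unfold core
  rw [Set.compl_iInter, measure_iUnion_null_iff]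
  intro w
  rw [← Set.preimage_compl, (hf.run_mp w).measure_preimage h.compl.nullMeasurableSet]
  exact h0

end Good

section Facts

variable {S X : Type} [Finite S] {β : S → S} {p : Bit → S} {δ : Bit} {e : unitInterval}
  [MeasurableSpace X] {μ : Measure X} [IsProbabilityMeasure μ] {f : S → X → X} {s : X → Sk}

omit [Finite S] [MeasurableSpace X] in
theorem sig_mem {L : Type} [MeasurableSpace L] (f : S → X → X) (s : X → L) {Q : Set (List S)}
    {w : List S} (hw : w ∈ Q) {B : Set L} (hB : MeasurableSet B) :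
    MeasurableSet[sig f s Q] {x | s (run f w x) ∈ B} := by
  refine sig_iff.2 ⟨(fun g : Q → L => g ⟨w, hw⟩) ⁻¹' B, ?_, rfl⟩
  exact (measurable_pi_apply _) hB

omit [Finite S] [IsProbabilityMeasure μ] in
theorem sig_le {L : Type} [MeasurableSpace L] {f : S → X → X} (hf : Sys β μ f) {s : X → L}
    (hs : Measurable s) (Q : Set (List S)) : sig f s Q ≤ ‹MeasurableSpace X› := by
  refine iSup₂_le fun w _ => ?_
  exact (hs.comp (hf.run_mp w).measurable).comap_le

omit [Finite S] [IsProbabilityMeasure μ] in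
/-- The edge rule from `glue`. -/
theorem edge_ae (hT : TM β p δ e μ f s) :
    ∀ᵐ x ∂μ, ∀ z, (s (f (p z) x)).2.1 δ (z + 1 + δ) = (s x).2.1 δ z + δ := by
  rw [ae_all_iff]
  intro z
  have hc : ∀ c : Bit, ∀ᵐ x ∂μ, (s x).2.1 δ z = c →
      (s (f (p z) x)).2.1 δ (z + 1 + δ) = c + δ := by
    intro c
    have hB : MeasurableSet {t : Sk | t.2.1 δ (z + 1 + δ) ≠ c + δ} := by
      have h1 : Measurable fun t : Sk => t.2.1 δ (z + 1 + δ) := by fun_prop
      exact (h1 (measurableSet_singleton (c + δ))).compl
    have hnil : ∀ a : S, ([] : List S) ∈ Side β a := fun a => ⟨List.isChain_nil, by simp⟩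
    have hF : MeasurableSet[sig f s (Side β (β (p z)))]
        {x | s x ∈ {t : Sk | t.2.1 δ (z + 1 + δ) ≠ c + δ}} :=
      sig_mem f s (hnil _) hB
    have hg := hT.glue z c Set.univ _ MeasurableSet.univ hF
    have h0 : {x | (s x).2.1 δ (z + 1 + δ) = c + δ} ∩
        {x | s x ∈ {t : Sk | t.2.1 δ (z + 1 + δ) ≠ c + δ}} = ∅ := by
      ext x
      simp
    rw [h0, measure_empty, mul_zero] at hg
    rw [ae_iff]
    refine measure_mono_null ?_ hg
    intro x hx
    simp only [Set.mem_ofPred_eq, Classical.not_imp] at hx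
    exact ⟨⟨hx.1, trivial⟩, hx.2⟩
  have hall : ∀ᵐ x ∂μ, ∀ c : Bit, (s x).2.1 δ z = c →
      (s (f (p z) x)).2.1 δ (z + 1 + δ) = c + δ := ae_all_iff.2 hc
  filter_upwards [hall] with x hx
  exact hx _ rfl

omit [Finite S] [IsProbabilityMeasure μ] in
/-- The law of `s` is `kap e`. -/
theorem law_s (hK : IsProbabilityMeasure (kap e)) (hT : TM β p δ e μ f s) :
    MeasurePreserving s μ (kap e) := by
  have h := (measurePreserving_eval_infinitePi (fun _ : HW β p => kap e)
    ⟨[], List.isChain_nil, by simp [IsH]⟩).comp hT.cos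
  exact h

theorem sk_diag : MeasurableSet {x : Sk × Sk | x.1 = x.2} := by
  have h : {x : Sk × Sk | x.1 = x.2} = {x | x.1.1 = x.2.1} ∩
      ((⋂ d, ⋂ z, {x | x.1.2.1 d z = x.2.2.1 d z}) ∩ ({x | x.1.2.2.1 = x.2.2.2.1} ∩
        ⋂ z, {x | x.1.2.2.2 z = x.2.2.2.2 z})) := by
    ext ⟨⟨a1, a2, a3, a4⟩, ⟨b1, b2, b3, b4⟩⟩
    simp only [Set.mem_ofPred_eq, Set.mem_inter_iff, Set.mem_iInter, Prod.mk.injEq, funext_iff]
  rw [h]
  refine (measurableSet_eq_fun (by fun_prop) (by fun_prop)).inter
    ((MeasurableSet.iInter fun d => MeasurableSet.iInter fun z =>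
      measurableSet_eq_fun (by fun_prop) (by fun_prop)).inter
      ((measurableSet_eq_fun (by fun_prop) (by fun_prop)).inter
        (MeasurableSet.iInter fun z => measurableSet_eq_fun (by fun_prop) (by fun_prop))))

omit [IsProbabilityMeasure μ] in
/-- Freeness of the H-action. -/
theorem free_ae (hK : IsProbabilityMeasure (kap e)) (hN : NullSingletonClass (kap e))
    (hT : TM β p δ e μ f s) :
    ∀ᵐ x ∂μ, ∀ h : List S, Red β h → IsH p h → run f h x = x → h = [] := by
  rw [ae_all_iff]
  intro h
  by_cases hh : Red β h ∧ IsH p h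
  swap
  · exact Filter.Eventually.of_forall fun x h1 h2 => absurd ⟨h1, h2⟩ hh
  by_cases h0 : h = []
  · exact Filter.Eventually.of_forall fun x _ _ _ => h0
  have hij : (⟨[], List.isChain_nil, by simp [IsH]⟩ : HW β p) ≠ ⟨h, hh⟩ := by
    intro hc
    exact h0 (congrArg Subtype.val hc).symm
  have h1 := Measure.infinitePi_map_eval_prod (P := fun _ : HW β p => kap e) hij
  have h2 : (Measure.infinitePi fun _ : HW β p => kap e)
      {ω | ω ⟨[], List.isChain_nil, by simp [IsH]⟩ = ω ⟨h, hh⟩} = 0 := by
    have h3 : (Measure.infinitePi fun _ : HW β p => kap e)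
        {ω | ω ⟨[], List.isChain_nil, by simp [IsH]⟩ = ω ⟨h, hh⟩} =
        ((kap e).prod (kap e)) {x : Sk × Sk | x.1 = x.2} := by
      rw [← h1, Measure.map_apply (by fun_prop) sk_diag]
      rfl
    rw [h3, Measure.measure_prod_null sk_diag]
    refine Filter.Eventually.of_forall fun a => ?_
    have h4 : Prod.mk a ⁻¹' {x : Sk × Sk | x.1 = x.2} = {a} := by
      ext b
      simp [eq_comm]
    simp only [h4, Pi.zero_apply]
    exact measure_singleton a
  have h5 : ∀ᵐ ω ∂(Measure.infinitePi fun _ : HW β p => kap e),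
      ω ⟨[], List.isChain_nil, by simp [IsH]⟩ ≠ ω ⟨h, hh⟩ := by
    rw [ae_iff]
    simpa only [not_not, ne_eq] using h2
  have h6 := hT.cos.quasiMeasurePreserving.ae h5
  filter_upwards [h6] with x hx _ _ hfix
  exfalso
  apply hx
  show s (run f [] x) = s (run f h x)
  rw [hfix, run_nil]

end Facts

section Construct

variable {S X : Type}

/-- The word of the exchanged letter `p c` at `x`. -/
noncomputable def exW (f : S → X → X) (s : X → Sk) (p : Bit → S) (K K' : Bit → Bit → X → List S)
    (c : Bit) (x : X) : List S :=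
  K' ((s x).2.1 1 c) c x ++ p ((s x).2.1 1 c) ::
    K ((s x).2.1 1 c + 1) c (run f (K' ((s x).2.1 1 c) c x ++ [p ((s x).2.1 1 c)]) x)

open Classical in
/-- The exchanged letter `p c`. -/
noncomputable def exP (f : S → X → X) (s : X → Sk) (p : Bit → S) (K K' : Bit → Bit → X → List S)
    (G : Set X) (c : Bit) (x : X) : X :=
  if x ∈ G then run f (exW f s p K K' c x) x else x

open Classical in
/-- The exchanged system. -/
noncomputable def exG (f : S → X → X) (s : X → Sk) (p : Bit → S) (K K' : Bit → Bit → X → List S)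
    (G : Set X) (a : S) (x : X) : X :=
  if h : ∃ c, p c = a then exP f s p K K' G h.choose x else f a x

variable {f : S → X → X} {s : X → Sk} {p : Bit → S} {K K' : Bit → Bit → X → List S} {G : Set X}

theorem exG_P (hp : Function.Injective p) (c : Bit) (x : X) :
    exG f s p K K' G (p c) x = exP f s p K K' G c x := by
  have h : ∃ c', p c' = p c := ⟨c, rfl⟩
  unfold exG
  rw [dif_pos h, hp h.choose_spec]

theorem exG_H {a : S} (ha : a ∉ Set.range p) : exG f s p K K' G a = f a := by
  funext x
  have ha' : ¬ ∃ c, p c = a := ha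
  unfold exG
  rw [dif_neg ha']

theorem exP_off {c : Bit} {x : X} (hx : x ∉ G) : exP f s p K K' G c x = x := by
  unfold exP
  rw [if_neg hx]

theorem exP_on {c : Bit} {x : X} (hx : x ∈ G) {z : Bit} (hz : z = (s x).2.1 1 c) {y : X}
    (hy : y = f (p z) (run f (K' z c x) x)) :
    exP f s p K K' G c x = run f (K (z + 1) c y) y := by
  unfold exP
  rw [if_pos hx]
  unfold exW
  subst hz
  subst hy
  rw [run_append, run_cons, run_append, run_cons, run_nil]

end Construct

section MeasW

variable {S X : Type} [Finite S] {β : S → S} [MeasurableSpace X] {μ : Measure X} {f : S → X → X}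

theorem exW_meas (hf : Sys β μ f) {s : X → Sk} (hs : Measurable s) (p : Bit → S)
    {K K' : Bit → Bit → X → List S}
    (hK : ∀ z c (w : List S), MeasurableSet (K z c ⁻¹' {w}))
    (hK' : ∀ z c (w : List S), MeasurableSet (K' z c ⁻¹' {w})) (c : Bit) (w : List S) :
    MeasurableSet (exW f s p K K' c ⁻¹' {w}) := by
  let _ : MeasurableSpace (List S) := ⊤
  have _ : DiscreteMeasurableSpace (List S) := ⟨fun _ => trivial⟩
  have mK : ∀ z c, Measurable (K z c) := fun z c => measurable_to_countable' (hK z c)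
  have mK' : ∀ z c, Measurable (K' z c) := fun z c => measurable_to_countable' (hK' z c)
  have mZ : Measurable fun x => (s x).2.1 1 c := by fun_prop
  have mA : Measurable fun x => K' ((s x).2.1 1 c) c x := by
    have h1 : Measurable fun q : Bit × X => K' q.1 c q.2 :=
      measurable_from_prod_countable_right fun z => mK' z c
    exact h1.comp (mZ.prodMk measurable_id)
  have mB : Measurable fun x => K' ((s x).2.1 1 c) c x ++ [p ((s x).2.1 1 c)] := by
    have h1 : Measurable fun q : List S × Bit => q.1 ++ [p q.2] := Measurable.of_discrete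
    exact h1.comp (mA.prodMk mZ)
  have mY : Measurable fun x => run f (K' ((s x).2.1 1 c) c x ++ [p ((s x).2.1 1 c)]) x :=
    piece_measurable (fun x => K' ((s x).2.1 1 c) c x ++ [p ((s x).2.1 1 c)])
      (fun i => mB (measurableSet_singleton i)) (fun w => run f w) fun w => (hf.run_mp w).measurable
  have mC : Measurable fun x => K ((s x).2.1 1 c + 1) c
      (run f (K' ((s x).2.1 1 c) c x ++ [p ((s x).2.1 1 c)]) x) := by
    have h1 : Measurable fun q : Bit × X => K (q.1 + 1) c q.2 :=
      measurable_from_prod_countable_right fun z => mK (z + 1) c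
    exact h1.comp (mZ.prodMk mY)
  have mW : Measurable (exW f s p K K' c) := by
    have h1 : Measurable fun q : List S × Bit × List S => q.1 ++ p q.2.1 :: q.2.2 :=
      Measurable.of_discrete
    exact h1.comp (mA.prodMk (mZ.prodMk mC))
  exact mW (measurableSet_singleton w)

end MeasW

/-- EXCH. -/
theorem exch (hM : S_MATCH) (hP : S_PRB) : S_EXCH := by
  classical
  intro S _ βZ βD p hZ hD hβ hab e X _ μ _ f hf s hT
  obtain ⟨_, hKp, _, _, hKn, _, _, _, _, _, _, hKb⟩ := hP.2 e
  choose K K' hKm hKm' hKH hKH' hKn0 hKn0' hth hth' htail using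
    hM S βZ p 0 hZ hab e X μ f hf s hT
  have hz1 : ∀ z : Bit, z + 1 + 1 = z := by decide
  -- the good properties
  let Pr : X → Prop := fun x =>
    (∀ z c, (s x).2.1 0 z = c → (s (run f (K z c x) x)).2.1 1 c = z ∧
      K' z c (run f (K z c x) x) = invw βZ (K z c x)) ∧
    (∀ z c, (s x).2.1 1 c = z → (s (run f (K' z c x) x)).2.1 0 z = c ∧
      K z c (run f (K' z c x) x) = invw βZ (K' z c x)) ∧
    (∀ z, (s (f (p z) x)).2.1 0 (z + 1) = (s x).2.1 0 z) ∧
    ((s x).1 = false → ∀ d z, (s x).2.1 d z = (s x).2.1 0 0 + z) ∧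
    (∀ h, Red βZ h → IsH p h → run f h x = x → h = [])
  have hPr : ∀ᵐ x ∂μ, Pr x := by
    refine Filter.Eventually.and ?_ (Filter.Eventually.and ?_ (Filter.Eventually.and ?_
      (Filter.Eventually.and ?_ ?_)))
    · exact ae_all_iff.2 fun z => ae_all_iff.2 fun c => hth z c
    · exact ae_all_iff.2 fun z => ae_all_iff.2 fun c => hth' z c
    · filter_upwards [edge_ae hT] with x hx z
      have := hx z
      rwa [add_zero, add_zero] at this
    · exact (law_s hKp hT).quasiMeasurePreserving.ae hKb
    · exact free_ae hKp hKn hT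
  obtain ⟨N, hN1, hN2, hN3⟩ := exists_measurable_superset_of_null (ae_iff.1 hPr)
  have hG : ∀ x ∈ core f Nᶜ, Pr x := by
    intro x hx
    by_contra hc
    exact core_sub Nᶜ hx (hN1 hc)
  have hGm : MeasurableSet (core f Nᶜ) := core_meas hf hN2.compl
  have hG0 : μ (core f Nᶜ)ᶜ = 0 := core_full hf hN2.compl (by rwa [compl_compl])
  have hGr : ∀ x ∈ core f Nᶜ, ∀ w, run f w x ∈ core f Nᶜ := fun x hx w => core_run Nᶜ hx w
  generalize core f Nᶜ = G at hG hGm hG0 hGr
  have hGf : ∀ a, ∀ x ∈ G, f a x ∈ G := fun a x hx => hGr x hx [a]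
  have hGP : ∀ c, ∀ x ∈ G, exP f s p K K' G c x ∈ G := by
    intro c x hx
    unfold exP
    rw [if_pos hx]
    exact hGr x hx _
  have hmK : ∀ z c (w : List S), MeasurableSet (K z c ⁻¹' {w}) := fun z c w =>
    sig_le hf hT.meas _ _ (hKm z c trivial)
  have hmK' : ∀ z c (w : List S), MeasurableSet (K' z c ⁻¹' {w}) := fun z c w =>
    sig_le hf hT.meas _ _ (hKm' z c trivial)
  -- `exP c` is an involution
  have hinv : ∀ c x, exP f s p K K' G c (exP f s p K K' G c x) = x := by
    intro c x
    by_cases hx : x ∈ G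
    swap
    · rw [exP_off hx, exP_off hx]
    obtain ⟨z, hz⟩ : ∃ z, z = (s x).2.1 1 c := ⟨_, rfl⟩
    obtain ⟨u, hu⟩ : ∃ u, u = run f (K' z c x) x := ⟨_, rfl⟩
    obtain ⟨y, hy⟩ : ∃ y, y = f (p z) u := ⟨_, rfl⟩
    have huG : u ∈ G := hu ▸ hGr x hx _
    have hyG : y ∈ G := hy ▸ hGf _ u huG
    obtain ⟨hu1, hu2⟩ := (hG x hx).2.1 z c hz.symm
    rw [← hu] at hu1 hu2
    have hy1 : (s y).2.1 0 (z + 1) = c := by
      rw [hy, (hG u huG).2.2.1 z, hu1]
    obtain ⟨hv1, hv2⟩ := (hG y hyG).1 (z + 1) c hy1
    have he1 : exP f s p K K' G c x = run f (K (z + 1) c y) y :=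
      exP_on hx hz (by rw [hy, hu])
    obtain ⟨v, hv⟩ : ∃ v, v = run f (K (z + 1) c y) y := ⟨_, rfl⟩
    rw [← hv] at hv1 hv2 he1
    have hvG : v ∈ G := hv ▸ hGr y hyG _
    rw [he1]
    have hyv : run f (K' (z + 1) c v) v = y := by
      rw [hv2, hv, run_invw hf.inv]
    have hyu : f (p (z + 1)) y = u := by
      have h1 := hf.inv (p z) u
      rw [hZ.bp, add_zero] at h1
      rw [hy]
      exact h1
    rw [exP_on hvG hv1.symm (y := u) (by rw [hyv, hyu]), hz1, hu2, hu, run_invw hf.inv]
  have hmp : ∀ c, MeasurePreserving (exP f s p K K' G c) μ μ := by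
    intro c
    refine piece_mp (exP f s p K K' G c) (hinv c)
      (fun x => if x ∈ G then exW f s p K K' c x else []) ?_ (fun w => run f w)
      (fun w => run f (invw βZ w)) (fun w => (hf.run_mp w).measurable)
      (fun w => hf.run_mp _) (fun w x => run_invw hf.inv w x)
      (fun w x => run_invw' hZ.inv hf.inv w x) ?_
    · intro w
      have h1 : (fun x => if x ∈ G then exW f s p K K' c x else []) ⁻¹' {w} =
          (G ∩ exW f s p K K' c ⁻¹' {w}) ∪ (Gᶜ ∩ {_x | [] = w}) := by
        ext x
        by_cases hx : x ∈ G <;> simp [hx]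
      rw [h1]
      exact (hGm.inter (exW_meas hf hT.meas p hmK hmK' c w)).union
        (hGm.compl.inter (MeasurableSet.const _))
    · intro x
      unfold exP
      by_cases hx : x ∈ G
      · simp only [if_pos hx]
      · simp only [if_neg hx, run_nil]
  have hrange : ∀ a, a ∉ Set.range p → βZ a ∉ Set.range p := by
    rintro a ha ⟨z, hz⟩
    apply ha
    refine ⟨z + 1 + 0, ?_⟩
    rw [← hZ.bp, hz, hZ.inv]
  refine ⟨exG f s p K K' G, K, K', G, ?_, htail⟩
  exact
    { frZ := hZ
      frD := hD
      βeq := hβ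
      sysZ := hf
      sysD := by
        constructor
        · intro a
          by_cases ha : a ∈ Set.range p
          · obtain ⟨c, rfl⟩ := ha
            have h1 : exG f s p K K' G (p c) = exP f s p K K' G c :=
              funext fun x => exG_P hZ.inj c x
            rw [h1]
            exact hmp c
          · rw [exG_H ha]
            exact hf.mp a
        · intro a x
          by_cases ha : a ∈ Set.range p
          · obtain ⟨c, rfl⟩ := ha
            rw [hD.bp, hz1, exG_P hZ.inj, exG_P hZ.inj]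
            exact hinv c x
          · have h1 : βD a = βZ a := (hβ a ha).symm
            rw [h1, exG_H (hrange a ha), exG_H ha]
            exact hf.inv a x
      meas := hT.meas
      G_meas := hGm
      G_full := hG0
      G_f := hGf
      G_g := by
        intro a x hx
        by_cases ha : a ∈ Set.range p
        · obtain ⟨c, rfl⟩ := ha
          rw [exG_P hZ.inj]
          exact hGP c x hx
        · rw [exG_H ha]
          exact hGf a x hx
      bits := fun x hx => (hG x hx).2.2.2.1
      edge := fun x hx => (hG x hx).2.2.1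
      free := fun x hx => (hG x hx).2.2.2.2
      K_meas := hKm
      K'_meas := hKm'
      K_H := hKH
      K'_H := hKH'
      K_nil := hKn0
      K'_nil := hKn0'
      th := fun z c x hx => (hG x hx).1 z c
      th' := fun z c x hx => (hG x hx).2.1 z c
      g_H := fun a ha => exG_H ha
      g_P := by
        intro c x hx z hz y hy
        rw [exG_P hZ.inj]
        exact exP_on hx hz hy
      g_off := by
        intro c x hx
        rw [exG_P hZ.inj]
        exact exP_off hx }

end Pool.Agent.Helper74.OB
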