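import Pool.Agent.Helper73.OB.GoalsA

/-!
Project OB, packet FAR (`S_FAR`): almost surely all far ends exist, and the reals at different ends
are different.
-/

open MeasureTheory ProbabilityTheory
open scoped ENNReal

namespace Pool.Agent.Helper74.OB

open Pool.Agent.Helper73.OB

section Words

variable {S : Type} {β : S → S} {p : Bit → S} {δ : Bit}

theorem uw_length (p : Bit → S) (δ : Bit) (k : ℕ) (z : Bit) : (uw p δ k z).length = k := by
  simp [uw]

theorem uw_eq (p : Bit → S) (δ : Bit) (k : ℕ) (z : Bit) :
    uw p δ k z = (List.range k).map fun j : ℕ => p (z + (j : Bit) * δ) := by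
  have h : ∀ (l : List ℕ) (g : ℕ → S), (l.map fun x => [g x]).flatten = l.map g := by
    intro l g
    induction l with
    | nil => rfl
    | cons a l ih => simp [ih]
  simp [uw, List.flatMap, Function.comp_def, h]

theorem uw_red (h : Fr β p δ) (k : ℕ) (z : Bit) : Red β (uw p δ k z) := by
  unfold Red
  rw [uw_eq, List.isChain_map, List.isChain_range]
  intro m _
  rw [h.bp]
  intro hc
  have h1 := h.inj hc
  have h2 : (1 : Bit) = 0 := by
    push_cast at h1
    linear_combination -h1
  exact one_ne_zero h2

theorem uw_head (k : ℕ) (z : Bit) (hk : 1 ≤ k) : (uw p δ k z).head? = some (p z) := by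
  obtain ⟨k, rfl⟩ := Nat.exists_eq_add_of_le' hk
  simp [uw, List.range_succ_eq_map]

theorem uw_inj (h : Fr β p δ) {k k' : ℕ} {z z' : Bit} (hk : 1 ≤ k)
    (he : uw p δ k z = uw p δ k' z') : k = k' ∧ z = z' := by
  have h1 : k = k' := by
    have := congrArg List.length he
    rwa [uw_length, uw_length] at this
  subst h1
  refine ⟨rfl, ?_⟩
  have h2 := congrArg List.head? he
  rw [uw_head k z hk, uw_head k z' hk] at h2
  exact h.inj (Option.some.inj h2)

theorem uw_ne_nil (k : ℕ) (z : Bit) (hk : 1 ≤ k) : uw p δ k z ≠ [] := by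
  intro h
  have := congrArg List.length h
  rw [uw_length] at this
  simp at this
  omega

/-- The straight word as a reduced word. -/
def U (h : Fr β p δ) (k : ℕ) (z : Bit) : RW β := ⟨uw p δ k z, uw_red h k z⟩

theorem U_inj (h : Fr β p δ) {k k' : ℕ} {z z' : Bit} (hk : 1 ≤ k)
    (he : U h k z = U h k' z') : k = k' ∧ z = z' :=
  uw_inj h hk (congrArg Subtype.val he)

end Words

section Prob

variable {ι L : Type} [MeasurableSpace L] (law : Measure L) [IsProbabilityMeasure law]

/-- Infinitely many independent labels: almost surely one of them is a marker. -/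
theorem null_nomark (m : L → Bool) (hm : Measurable m) (hP : 0 < law {a | m a = true})
    (w : ℕ → ι) (hw : Function.Injective w) :
    (Measure.infinitePi fun _ : ι => law) {ω | ∀ k, m (ω (w k)) ≠ true} = 0 := by
  classical
  have hA : MeasurableSet {a | m a = true} := hm (measurableSet_singleton true)
  have hq : law {a | m a = true}ᶜ < 1 := by
    rw [prob_compl_eq_one_sub hA]
    exact ENNReal.sub_lt_self ENNReal.one_ne_top one_ne_zero hP.ne'
  have hle : ∀ n : ℕ, (Measure.infinitePi fun _ : ι => law) {ω | ∀ k, m (ω (w k)) ≠ true} ≤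
      (law {a | m a = true}ᶜ) ^ n := by
    intro n
    calc (Measure.infinitePi fun _ : ι => law) {ω | ∀ k, m (ω (w k)) ≠ true}
        ≤ (Measure.infinitePi fun _ : ι => law)
          (Set.pi ((Finset.range n).image w : Finset ι) fun _ => {a | m a = true}ᶜ) := by
          apply measure_mono
          intro ω hω i hi
          obtain ⟨k, _, rfl⟩ := Finset.mem_image.1 (Finset.mem_coe.1 hi)
          exact hω k
      _ = ∏ i ∈ (Finset.range n).image w, law {a | m a = true}ᶜ :=
          Measure.infinitePi_pi _ (fun i _ => hA.compl)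
      _ = (law {a | m a = true}ᶜ) ^ n := by
          rw [Finset.prod_const, Finset.card_image_of_injective _ hw, Finset.card_range]
  have hlim := ENNReal.tendsto_pow_atTop_nhds_zero_of_lt_one hq
  exact le_antisymm (ge_of_tendsto' hlim hle) bot_le

/-- The reals at two different coordinates are almost surely different. -/
theorem null_eq (v : L → unitInterval) (hv : Measurable v) (h0 : ∀ t, law {a | v a = t} = 0)
    {i j : ι} (hij : i ≠ j) :
    (Measure.infinitePi fun _ : ι => law) {ω | v (ω i) = v (ω j)} = 0 := by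
  have hB : MeasurableSet {x : L × L | v x.1 = v x.2} :=
    measurableSet_eq_fun (hv.comp measurable_fst) (hv.comp measurable_snd)
  have h1 := Measure.infinitePi_map_eval_prod (P := fun _ : ι => law) hij
  have h2 : (Measure.infinitePi fun _ : ι => law) {ω | v (ω i) = v (ω j)} =
      (law.prod law) {x : L × L | v x.1 = v x.2} := by
    rw [← h1, Measure.map_apply (by fun_prop) hB]
    rfl
  rw [h2, Measure.measure_prod_null hB]
  refine Filter.Eventually.of_forall fun a => ?_
  have h3 : Prod.mk a ⁻¹' {x : L × L | v x.1 = v x.2} = {b | v b = v a} := by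
    ext b
    simp [eq_comm]
  simp only [h3, Pi.zero_apply]
  exact h0 _

end Prob

/-- FAR. -/
theorem far : S_FAR := by
  intro S _ β p δ hF X _ μ _ f hf L _ law _ l hl m v hm hv hP h0
  have hmp := hl.2
  -- the statement for the fields
  have hall : ∀ᵐ ω ∂(iid β law), (∀ z : Bit, ∃ k, m (ω (U hF (k + 1) z)) = true) ∧
      (∀ (k : ℕ) (z : Bit), v (ω (U hF (k + 1) z)) ≠ v (ω (rootW β))) ∧
      (∀ (k k' : ℕ) (z : Bit), v (ω (U hF (k + 1) z)) ≠ v (ω (U hF (k' + 1) (z + 1)))) := by
    refine Filter.Eventually.and ?_ (Filter.Eventually.and ?_ ?_)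
    · rw [ae_all_iff]
      intro z
      rw [ae_iff]
      have := null_nomark law m hm hP (fun k => U hF (k + 1) z) (by
        intro k k' h
        have := (U_inj hF (Nat.le_add_left 1 k) h).1
        omega)
      simpa only [not_exists] using this
    · rw [ae_all_iff]
      intro k
      rw [ae_all_iff]
      intro z
      rw [ae_iff]
      have hne : U hF (k + 1) z ≠ rootW β := by
        intro h
        exact uw_ne_nil (k + 1) z (Nat.le_add_left 1 k) (congrArg Subtype.val h)
      simpa only [not_not, ne_eq] using null_eq law v hv h0 hne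
    · rw [ae_all_iff]
      intro k
      rw [ae_all_iff]
      intro k'
      rw [ae_all_iff]
      intro z
      rw [ae_iff]
      have hne : U hF (k + 1) z ≠ U hF (k' + 1) (z + 1) := by
        intro h
        have := (U_inj hF (Nat.le_add_left 1 k) h).2
        have h2 : (1 : Bit) = 0 := by linear_combination -this
        exact one_ne_zero h2
      simpa only [not_not, ne_eq] using null_eq law v hv h0 hne
  have hx := hmp.quasiMeasurePreserving.ae hall
  filter_upwards [hx] with x hx z
  obtain ⟨hx1, hx2, hx3⟩ := hx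
  have hex : ∀ z : Bit, ∃ k, 1 ≤ k ∧ m (l (run f (uw p δ k z) x)) = true := by
    intro z
    obtain ⟨k, hk⟩ := hx1 z
    exact ⟨k + 1, Nat.le_add_left 1 k, hk⟩
  have hk1 : ∀ z : Bit, ∃ k, kfar p δ f (fun y => m (l y)) x z = k + 1 := by
    intro z
    have hmem : kfar p δ f (fun y => m (l y)) x z ∈
        {k | 1 ≤ k ∧ m (l (run f (uw p δ k z) x)) = true} := Nat.sInf_mem (hex z)
    exact Nat.exists_eq_add_of_le' hmem.1
  refine ⟨hex z, ?_, ?_⟩
  · obtain ⟨k, hk⟩ := hk1 z
    unfold pfar
    rw [hk]
    exact hx2 k z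
  · obtain ⟨k, hk⟩ := hk1 z
    obtain ⟨k', hk'⟩ := hk1 (z + 1)
    unfold pfar
    rw [hk, hk']
    exact hx3 k k' z

end Pool.Agent.Helper74.OB
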